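import Pool.Agent.R395.Wit

/-!
The coefficients of `37 E_6 (E_4^3 - E_6^2) / (110592 E_6^2 - 46656 E_4^3)` modulo `5 ^ 15`.
-/

set_option autoImplicit false

namespace Pool.Agent.R395.Kron

open Finset

/-- `E_4` with integer coefficients -/
noncomputable def P4 : PowerSeries ℤ :=
  PowerSeries.mk fun n => if n = 0 then 1 else 240 * (ArithmeticFunction.sigma 3 n : ℕ)

/-- `E_6` with integer coefficients -/
noncomputable def P6 : PowerSeries ℤ :=
  PowerSeries.mk fun n => if n = 0 then 1 else -504 * (ArithmeticFunction.sigma 5 n : ℕ)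

noncomputable def Nm : PowerSeries ℤ := P6 * (37 * P4 ^ 3 - 37 * P6 ^ 2)
noncomputable def Dn : PowerSeries ℤ := 110592 * P6 ^ 2 - 46656 * P4 ^ 3

/-- reduction modulo `MM` -/
noncomputable def rd : PowerSeries ℤ →+* PowerSeries (ZMod MM) := PowerSeries.map (Int.castRingHom (ZMod MM))

lemma MM_pos : 0 < MM := by unfold MM; norm_num
lemma MM_B : 2 ^ 12 * (MM * MM) < B := by unfold MM B; norm_num
lemma MM_B2 : 2 * (MM * MM) < B := by unfold MM B; norm_num
lemma MM_B1 : MM ≤ B := by unfold MM B; norm_num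

lemma cast_MM : ((MM : ℕ) : ZMod MM) = 0 := ZMod.natCast_self MM

lemma rep_e4 : Rep MM 12 e4 (rd P4) := by
  refine rep_sg MM_pos MM_B1 240 3 (by unfold B; norm_num) _ fun n hn => ?_
  simp only [rd, P4, PowerSeries.coeff_map, PowerSeries.coeff_mk]
  split_ifs <;> simp

lemma rep_e6 : Rep MM 12 e6 (rd P6) := by
  refine rep_sg MM_pos MM_B1 (MM - 504) 5 (by unfold B MM; norm_num) _ fun n hn => ?_
  simp only [rd, P6, PowerSeries.coeff_map, PowerSeries.coeff_mk]
  have h : (((MM - 504 : ℕ)) : ZMod MM) = -504 := by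
    rw [Nat.cast_sub (by unfold MM; norm_num), cast_MM]
    simp
  rw [h]
  split_ifs <;> simp

lemma rep_e4cu : Rep MM 12 e4cu (rd (P4 ^ 3)) := by
  have h := rep_mul MM_pos MM_B (rep_mul MM_pos MM_B rep_e4 rep_e4) rep_e4
  have e : rd (P4 ^ 3) = rd P4 * rd P4 * rd P4 := by rw [map_pow]; ring
  rw [e]
  exact h

lemma rep_e6sq : Rep MM 12 e6sq (rd (P6 ^ 2)) := by
  have h := rep_mul MM_pos MM_B rep_e6 rep_e6
  have e : rd (P6 ^ 2) = rd P6 * rd P6 := by rw [map_pow]; ring
  rw [e]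
  exact h

lemma cast_sub_MM (c : ℕ) (hc : c ≤ MM) : (((MM - c : ℕ)) : PowerSeries (ZMod MM)) = -(c : PowerSeries (ZMod MM)) := by
  have h : (((MM - c : ℕ)) : ZMod MM) = -(c : ZMod MM) := by
    rw [Nat.cast_sub hc, cast_MM]
    simp
  rw [← map_natCast (PowerSeries.C (R := ZMod MM)), h, map_neg, map_natCast]

lemma rep_dif : Rep MM 12 dif (rd (37 * P4 ^ 3 - 37 * P6 ^ 2)) := by
  have h := rep_lin MM_pos MM_B2 rep_e4cu rep_e6sq 37 (MM - 37) (by unfold MM; norm_num) (Nat.sub_le _ _)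
  have e : rd (37 * P4 ^ 3 - 37 * P6 ^ 2) = ((37 : ℕ) : PowerSeries (ZMod MM)) * rd (P4 ^ 3) +
      ((MM - 37 : ℕ) : PowerSeries (ZMod MM)) * rd (P6 ^ 2) := by
    rw [cast_sub_MM 37 (by unfold MM; norm_num), map_sub, map_mul, map_mul, map_ofNat]
    push_cast
    ring
  rw [e]
  exact h

lemma rep_num : Rep MM 12 num (rd Nm) := by
  have h := rep_mul MM_pos MM_B rep_e6 rep_dif
  have e : rd Nm = rd P6 * rd (37 * P4 ^ 3 - 37 * P6 ^ 2) := by rw [Nm, map_mul]
  rw [e]
  exact h

lemma rep_den : Rep MM 12 den (rd Dn) := by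
  have h := rep_lin MM_pos MM_B2 rep_e6sq rep_e4cu 110592 (MM - 46656) (by unfold MM; norm_num) (Nat.sub_le _ _)
  have e : rd Dn = ((110592 : ℕ) : PowerSeries (ZMod MM)) * rd (P6 ^ 2) +
      ((MM - 46656 : ℕ) : PowerSeries (ZMod MM)) * rd (P4 ^ 3) := by
    rw [cast_sub_MM 46656 (by unfold MM; norm_num), Dn, map_sub, map_mul, map_mul, map_ofNat, map_ofNat]
    push_cast
    ring
  rw [e]
  exact h

/-- the witness as a power series -/
noncomputable def Gs : PowerSeries (ZMod MM) := PowerSeries.mk fun k => ((dg G k : ℕ) : ZMod MM)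

lemma rep_G : Rep MM 12 G Gs := by
  have h1 : red MM 12 G = G := Nat.eq_of_beq_eq_true redG
  have h2 : G < B ^ 2 ^ 12 := Nat.lt_of_succ_le (Nat.le_of_ble_eq_true G_lt)
  have h := rep_red (d := 12) MM_pos MM_B1 (f := Gs) h2 fun k _ => by rw [Gs, PowerSeries.coeff_mk]
  rwa [h1] at h

lemma coeff_prod (k : ℕ) (hk : k < 4096) : PowerSeries.coeff k (Gs * rd Dn) = PowerSeries.coeff k (rd Nm) := by
  have h := rep_mul MM_pos MM_B rep_G rep_den
  have h1 : mul MM 12 G den = num := Nat.eq_of_beq_eq_true check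
  rw [h1] at h
  rw [← h.co k hk, ← rep_num.co k hk]

lemma const_Dn : PowerSeries.constantCoeff Dn = 63936 := by
  rw [Dn, map_sub, map_mul, map_mul, map_pow, map_pow, map_ofNat, map_ofNat]
  have h4 : PowerSeries.constantCoeff P4 = 1 := by
    rw [← PowerSeries.coeff_zero_eq_constantCoeff_apply, P4, PowerSeries.coeff_mk, if_pos rfl]
  have h6 : PowerSeries.constantCoeff P6 = 1 := by
    rw [← PowerSeries.coeff_zero_eq_constantCoeff_apply, P6, PowerSeries.coeff_mk, if_pos rfl]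
  rw [h4, h6]
  norm_num

/-- two series with the same product with a unit agree up to the order to which the products agree -/
lemma eq_of_mul_unit {R : Type*} [CommRing R] {f g D : PowerSeries R} {N : ℕ}
    (hD : IsUnit (PowerSeries.constantCoeff D)) (h : ∀ k < N, PowerSeries.coeff k (f * D) = PowerSeries.coeff k (g * D)) :
    ∀ k < N, PowerSeries.coeff k f = PowerSeries.coeff k g := by
  obtain ⟨u, hu⟩ := hD
  have h1 : D * PowerSeries.invOfUnit D u = 1 := PowerSeries.mul_invOfUnit D u hu.symm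
  intro k hk
  have h2 : f - g = ((f - g) * D) * PowerSeries.invOfUnit D u := by rw [mul_assoc, h1, mul_one]
  have h3 : PowerSeries.coeff k (f - g) = 0 := by
    rw [h2, PowerSeries.coeff_mul]
    refine sum_eq_zero fun p hp => ?_
    rw [HasAntidiagonal.mem_antidiagonal] at hp
    have : PowerSeries.coeff p.1 ((f - g) * D) = 0 := by
      rw [sub_mul, map_sub, h p.1 (by omega), sub_self]
    rw [this, zero_mul]
  rw [map_sub, sub_eq_zero] at h3
  exact h3

instance : Fact (Nat.Prime 5) := ⟨by norm_num⟩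

/-- `MM = 5 ^ 15` reduction of `5`-adic integers -/
noncomputable def rz : ℤ_[5] →+* ZMod MM := PadicInt.toZModPow 15

lemma unit_z : IsUnit ((63936 : ℤ_[5])) := by
  have h : ((63936 : ℤ) : ℤ_[5]) = (63936 : ℤ_[5]) := by norm_cast
  rw [← h, PadicInt.isUnit_iff, PadicInt.norm_intCast_eq_one_iff]
  rw [Int.isCoprime_iff_gcd_eq_one]
  norm_num

/-- integer series over the `5`-adic integers -/
noncomputable def mz : PowerSeries ℤ →+* PowerSeries ℤ_[5] := PowerSeries.map (Int.castRingHom ℤ_[5])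

/-- the quotient over the `5`-adic integers -/
lemma exists_Fz : ∃ Fz : PowerSeries ℤ_[5], Fz * mz Dn = mz Nm := by
  have h1 : PowerSeries.constantCoeff (mz Dn) = (63936 : ℤ_[5]) := by
    rw [← PowerSeries.coeff_zero_eq_constantCoeff_apply, mz, PowerSeries.coeff_map,
      PowerSeries.coeff_zero_eq_constantCoeff_apply, const_Dn]
    norm_num
  obtain ⟨u, hu⟩ := unit_z
  refine ⟨mz Nm * PowerSeries.invOfUnit (mz Dn) u, ?_⟩
  have h2 : mz Dn * PowerSeries.invOfUnit (mz Dn) u = 1 := PowerSeries.mul_invOfUnit _ u (by rw [h1, hu])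
  calc mz Nm * PowerSeries.invOfUnit (mz Dn) u * mz Dn = mz Nm * (mz Dn * PowerSeries.invOfUnit (mz Dn) u) := by ring
    _ = mz Nm := by rw [h2, mul_one]

lemma unit_m : IsUnit (PowerSeries.constantCoeff (rd Dn)) := by
  have h1 : PowerSeries.constantCoeff (rd Dn) = ((63936 : ℤ) : ZMod MM) := by
    rw [← PowerSeries.coeff_zero_eq_constantCoeff_apply, rd, PowerSeries.coeff_map,
      PowerSeries.coeff_zero_eq_constantCoeff_apply, const_Dn]
    norm_num
  rw [h1]
  have h2 : (((63936 : ℕ)) : ZMod MM) = ((63936 : ℤ) : ZMod MM) := by norm_num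
  rw [← h2, ZMod.isUnit_iff_coprime]
  unfold MM
  norm_num

lemma coeff_Fz {Fz : PowerSeries ℤ_[5]} (h : Fz * mz Dn = mz Nm) (k : ℕ) (hk : k < 4096) :
    rz (PowerSeries.coeff k Fz) = ((dg G k : ℕ) : ZMod MM) := by
  have hcomp : ∀ f : PowerSeries ℤ, PowerSeries.map rz (mz f) = rd f := by
    intro f
    ext n
    rw [PowerSeries.coeff_map, mz, PowerSeries.coeff_map, rd, PowerSeries.coeff_map]
    simp
  have h1 : PowerSeries.map rz Fz * rd Dn = rd Nm := by
    rw [← hcomp, ← hcomp, ← map_mul, h]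
  have h2 := eq_of_mul_unit (f := PowerSeries.map rz Fz) (g := Gs) (D := rd Dn) (N := 4096) unit_m
    (fun k hk => by rw [h1, coeff_prod k hk]) k hk
  rw [PowerSeries.coeff_map] at h2
  rw [h2, Gs, PowerSeries.coeff_mk]

end Pool.Agent.R395.Kron
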