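import Mathlib

/-!
Truncated power series modulo `M`, packed into one natural number (slots of 128 bits), with a digit-wise reduction
which the kernel can evaluate.
-/

set_option autoImplicit false

namespace Pool.Agent.R395.Kron

open Finset

/-- base -/
def B : ℕ := 2 ^ 128

lemma B_pos : 0 < B := by unfold B; positivity

/-- the `k`-th digit -/
def dg (x k : ℕ) : ℕ := x / B ^ k % B

lemma dg_lt (x k : ℕ) : dg x k < B := Nat.mod_lt _ B_pos

lemma sum_lt (c : ℕ → ℕ) (hc : ∀ k, c k < B) (n : ℕ) : ∑ k ∈ range n, c k * B ^ k < B ^ n := by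
  induction n with
  | zero => simp
  | succ n ih =>
    rw [sum_range_succ, pow_succ]
    have h1 : c n * B ^ n ≤ (B - 1) * B ^ n := Nat.mul_le_mul_right _ (by have := hc n; omega)
    have h2 : (B - 1) * B ^ n + B ^ n = B ^ n * B := by
      have : B - 1 + 1 = B := Nat.sub_add_cancel B_pos
      calc (B - 1) * B ^ n + B ^ n = (B - 1 + 1) * B ^ n := by ring
        _ = B ^ n * B := by rw [this, mul_comm]
    omega

lemma dg_sum (c : ℕ → ℕ) (hc : ∀ k, c k < B) (n j : ℕ) :
    dg (∑ k ∈ range n, c k * B ^ k) j = if j < n then c j else 0 := by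
  unfold dg
  by_cases hj : j < n
  · rw [if_pos hj]
    obtain ⟨m, rfl⟩ : ∃ m, n = j + 1 + m := ⟨n - (j + 1), by omega⟩
    rw [sum_range_add, sum_range_succ]
    have h1 : ∑ x ∈ range m, c (j + 1 + x) * B ^ (j + 1 + x) =
        B ^ j * (B * ∑ x ∈ range m, c (j + 1 + x) * B ^ x) := by
      rw [mul_sum, mul_sum]
      refine sum_congr rfl fun x _ => ?_
      ring
    rw [h1]
    have h2 := sum_lt c hc j
    have hB : 0 < B ^ j := pow_pos B_pos j
    have h3 : (∑ x ∈ range j, c x * B ^ x + c j * B ^ j + B ^ j * (B * ∑ x ∈ range m, c (j + 1 + x) * B ^ x)) / B ^ j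
        = c j + B * ∑ x ∈ range m, c (j + 1 + x) * B ^ x := by
      have : ∑ x ∈ range j, c x * B ^ x + c j * B ^ j + B ^ j * (B * ∑ x ∈ range m, c (j + 1 + x) * B ^ x)
          = ∑ x ∈ range j, c x * B ^ x + B ^ j * (c j + B * ∑ x ∈ range m, c (j + 1 + x) * B ^ x) := by ring
      rw [this, Nat.add_mul_div_left _ _ hB, Nat.div_eq_of_lt h2, zero_add]
    rw [h3, Nat.add_mul_mod_self_left, Nat.mod_eq_of_lt (hc j)]
  · rw [if_neg hj]
    have h2 : ∑ k ∈ range n, c k * B ^ k < B ^ j :=
      lt_of_lt_of_le (sum_lt c hc n) (Nat.pow_le_pow_right B_pos (by omega))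
    rw [Nat.div_eq_of_lt h2, Nat.zero_mod]

lemma eq_sum_dg (x n : ℕ) (hx : x < B ^ n) : x = ∑ k ∈ range n, dg x k * B ^ k := by
  induction n generalizing x with
  | zero => simp at hx; simp [hx]
  | succ n ih =>
    rw [sum_range_succ']
    have h1 : ∀ k, dg x (k + 1) = dg (x / B) k := by
      intro k
      unfold dg
      rw [Nat.div_div_eq_div_mul, pow_succ, mul_comm (B ^ k)]
    have h2 : x / B < B ^ n := by
      rw [Nat.div_lt_iff_lt_mul B_pos]
      rw [pow_succ] at hx
      exact hx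
    have h3 := ih (x / B) h2
    have h4 : ∑ k ∈ range n, dg x (k + 1) * B ^ (k + 1) = B * (x / B) := by
      conv_rhs => rw [h3, mul_sum]
      refine sum_congr rfl fun k _ => ?_
      rw [h1 k]
      ring
    rw [h4]
    have h5 : dg x 0 = x % B := by unfold dg; simp
    rw [h5, pow_zero, mul_one]
    exact (Nat.div_add_mod x B).symm

lemma dg_mod (x n j : ℕ) : dg (x % B ^ n) j = if j < n then dg x j else 0 := by
  unfold dg
  by_cases hj : j < n
  · rw [if_pos hj]
    obtain ⟨m, rfl⟩ : ∃ m, n = j + 1 + m := ⟨n - (j + 1), by omega⟩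
    have h1 : x % B ^ (j + 1 + m) / B ^ j = x / B ^ j % B ^ (1 + m) := by
      have : B ^ (j + 1 + m) = B ^ j * B ^ (1 + m) := by rw [← pow_add]; congr 1; ring
      rw [this, Nat.mod_mul_right_div_self]
    rw [h1, pow_add, pow_one, Nat.mod_mul_right_mod]
  · rw [if_neg hj]
    have h2 : x % B ^ n < B ^ j :=
      lt_of_lt_of_le (Nat.mod_lt _ (pow_pos B_pos n)) (Nat.pow_le_pow_right B_pos (by omega))
    rw [Nat.div_eq_of_lt h2, Nat.zero_mod]

lemma dg_div (x n j : ℕ) : dg (x / B ^ n) j = dg x (n + j) := by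
  unfold dg
  rw [Nat.div_div_eq_div_mul, pow_add]

/-- digit-wise reduction modulo `M` of a number with `2 ^ d` digits -/
def red (M : ℕ) : ℕ → ℕ → ℕ
  | 0, x => x % M
  | d + 1, x => red M d (x % B ^ (2 ^ d)) + B ^ (2 ^ d) * red M d (x / B ^ (2 ^ d))

lemma red_eq (M : ℕ) (d x : ℕ) (hx : x < B ^ (2 ^ d)) :
    red M d x = ∑ k ∈ range (2 ^ d), (dg x k % M) * B ^ k := by
  induction d generalizing x with
  | zero =>
    simp only [red, pow_zero, range_one, sum_singleton, mul_one]
    unfold dg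
    simp only [pow_zero, Nat.div_one]
    rw [pow_zero, pow_one] at hx
    rw [Nat.mod_eq_of_lt hx]
  | succ d ih =>
    have hB : 0 < B ^ 2 ^ d := pow_pos B_pos _
    have h1 : x % B ^ 2 ^ d < B ^ 2 ^ d := Nat.mod_lt _ hB
    have h2 : x / B ^ 2 ^ d < B ^ 2 ^ d := by
      rw [Nat.div_lt_iff_lt_mul hB, ← pow_add]
      calc x < B ^ 2 ^ (d + 1) := hx
        _ = _ := by congr 1; ring
    rw [red, ih _ h1, ih _ h2]
    have h3 : 2 ^ (d + 1) = 2 ^ d + 2 ^ d := by ring
    rw [h3, sum_range_add, mul_sum]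
    congr 1
    · refine sum_congr rfl fun k hk => ?_
      rw [dg_mod, if_pos (mem_range.1 hk)]
    · refine sum_congr rfl fun k hk => ?_
      rw [dg_div, pow_add]
      ring

/-- `x` represents the power series `f` up to `q ^ (2 ^ d)` -/
structure Rep (M d : ℕ) (x : ℕ) (f : PowerSeries (ZMod M)) : Prop where
  lt : ∀ k, dg x k < M
  bd : x < B ^ (2 ^ d)
  co : ∀ k < 2 ^ d, ((dg x k : ℕ) : ZMod M) = PowerSeries.coeff k f

lemma rep_red {M d : ℕ} (hM : 0 < M) (hMB : M ≤ B) {x : ℕ} {f : PowerSeries (ZMod M)} (hx : x < B ^ (2 ^ d))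
    (h : ∀ k < 2 ^ d, ((dg x k : ℕ) : ZMod M) = PowerSeries.coeff k f) : Rep M d (red M d x) f := by
  have hlt : ∀ k, dg x k % M < B := fun k => lt_of_lt_of_le (Nat.mod_lt _ hM) hMB
  have hdg : ∀ k, dg (red M d x) k = if k < 2 ^ d then dg x k % M else 0 := by
    intro k
    rw [red_eq M d x hx]
    exact dg_sum (fun k => dg x k % M) hlt _ k
  refine ⟨fun k => ?_, ?_, fun k hk => ?_⟩
  · rw [hdg]
    split_ifs
    · exact Nat.mod_lt _ hM
    · exact hM
  · rw [red_eq M d x hx]
    exact sum_lt (fun k => dg x k % M) hlt _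
  · rw [hdg, if_pos hk, ← h k hk, ZMod.natCast_mod]

lemma rep_lin {M d : ℕ} (hM : 0 < M) (hMB : 2 * (M * M) < B) {x y : ℕ} {f g : PowerSeries (ZMod M)}
    (hx : Rep M d x f) (hy : Rep M d y g) (u v : ℕ) (hu : u ≤ M) (hv : v ≤ M) :
    Rep M d (red M d (u * x + v * y)) ((u : PowerSeries (ZMod M)) * f + (v : PowerSeries (ZMod M)) * g) := by
  have hMB' : M ≤ B := by nlinarith
  have hc : ∀ k, u * dg x k + v * dg y k < B := by
    intro k
    have h1 : u * dg x k ≤ M * M := Nat.mul_le_mul hu (hx.lt k).le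
    have h2 : v * dg y k ≤ M * M := Nat.mul_le_mul hv (hy.lt k).le
    omega
  have e : u * x + v * y = ∑ k ∈ range (2 ^ d), (u * dg x k + v * dg y k) * B ^ k := by
    conv_lhs => rw [eq_sum_dg x _ hx.bd, eq_sum_dg y _ hy.bd]
    rw [mul_sum, mul_sum, ← sum_add_distrib]
    refine sum_congr rfl fun k _ => ?_
    ring
  refine rep_red hM hMB' ?_ fun k hk => ?_
  · rw [e]
    exact sum_lt _ hc _
  · rw [e, dg_sum _ hc, if_pos hk]
    push_cast
    have h1 : PowerSeries.coeff k ((u : PowerSeries (ZMod M)) * f) = (u : ZMod M) * PowerSeries.coeff k f := by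
      rw [← map_natCast (PowerSeries.C (R := ZMod M)) u, PowerSeries.coeff_C_mul]
    have h2 : PowerSeries.coeff k ((v : PowerSeries (ZMod M)) * g) = (v : ZMod M) * PowerSeries.coeff k g := by
      rw [← map_natCast (PowerSeries.C (R := ZMod M)) v, PowerSeries.coeff_C_mul]
    rw [map_add, h1, h2, hx.co k hk, hy.co k hk]

/-- product of packed series -/
def mul (M d x y : ℕ) : ℕ := red M d (x * y % B ^ (2 ^ d))

lemma packed_mul (a b : ℕ → ℕ) (N : ℕ) (ha : ∀ k, N ≤ k → a k = 0) (hb : ∀ k, N ≤ k → b k = 0) :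
    (∑ k ∈ range N, a k * B ^ k) * (∑ k ∈ range N, b k * B ^ k) =
      ∑ k ∈ range (2 * N), (∑ p ∈ antidiagonal k, a p.1 * b p.2) * B ^ k := by
  have h1 : ∀ k, (∑ p ∈ antidiagonal k, a p.1 * b p.2) * B ^ k =
      ∑ p ∈ antidiagonal k, (a p.1 * B ^ p.1) * (b p.2 * B ^ p.2) := by
    intro k
    rw [sum_mul]
    refine sum_congr rfl fun p hp => ?_
    rw [← HasAntidiagonal.mem_antidiagonal.1 hp, pow_add]
    ring
  simp_rw [h1]
  rw [Finset.sum_mul_sum, ← sum_product']
  rw [sum_sigma' (range (2 * N)) (fun k => antidiagonal k)]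
  symm
  refine sum_bij_ne_zero (fun p _ _ => p.2) ?_ ?_ ?_ ?_
  · rintro ⟨k, p⟩ hp hne
    simp only [mem_sigma, mem_range, HasAntidiagonal.mem_antidiagonal] at hp
    rw [mem_product, mem_range, mem_range]
    constructor
    · by_contra h
      exact hne (by rw [ha _ (by omega)]; simp)
    · by_contra h
      exact hne (by rw [hb _ (by omega)]; simp)
  · rintro ⟨k, p⟩ hp _ ⟨k', p'⟩ hp' _ h
    simp only [mem_sigma, mem_range, HasAntidiagonal.mem_antidiagonal] at hp hp'
    simp only at h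
    subst h
    obtain ⟨_, rfl⟩ := hp
    obtain ⟨_, rfl⟩ := hp'
    rfl
  · rintro ⟨i, j⟩ hp hne
    rw [mem_product, mem_range, mem_range] at hp
    simp only at hp hne
    refine ⟨⟨i + j, (i, j)⟩, ?_, ?_, rfl⟩
    · simp only [mem_sigma, mem_range, HasAntidiagonal.mem_antidiagonal, and_true]
      omega
    · exact hne
  · rintro ⟨k, p⟩ hp hne
    rfl

lemma rep_mul {M d : ℕ} (hM : 0 < M) (hMB : 2 ^ d * (M * M) < B) {x y : ℕ} {f g : PowerSeries (ZMod M)}
    (hx : Rep M d x f) (hy : Rep M d y g) : Rep M d (mul M d x y) (f * g) := by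
  have h2d : 1 ≤ 2 ^ d := Nat.one_le_two_pow
  have hMB' : M ≤ B := by nlinarith
  set a : ℕ → ℕ := fun k => if k < 2 ^ d then dg x k else 0 with ha
  set b : ℕ → ℕ := fun k => if k < 2 ^ d then dg y k else 0 with hb
  have haM : ∀ k, a k ≤ M := by
    intro k
    simp only [ha]
    split_ifs
    · exact (hx.lt k).le
    · exact Nat.zero_le _
  have hbM : ∀ k, b k ≤ M := by
    intro k
    simp only [hb]
    split_ifs
    · exact (hy.lt k).le
    · exact Nat.zero_le _
  have ha0 : ∀ k, 2 ^ d ≤ k → a k = 0 := fun k hk => by simp only [ha]; rw [if_neg (by omega)]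
  have hb0 : ∀ k, 2 ^ d ≤ k → b k = 0 := fun k hk => by simp only [hb]; rw [if_neg (by omega)]
  have hc : ∀ k, ∑ p ∈ antidiagonal k, a p.1 * b p.2 < B := by
    intro k
    have h1 : ∑ p ∈ antidiagonal k, a p.1 * b p.2 ≤ ∑ p ∈ (antidiagonal k).filter (fun p => p.1 < 2 ^ d), M * M := by
      rw [sum_filter]
      refine sum_le_sum fun p _ => ?_
      split_ifs with h
      · exact Nat.mul_le_mul (haM _) (hbM _)
      · rw [ha0 _ (by omega)]; simp
    have h2 : ((antidiagonal k).filter (fun p => p.1 < 2 ^ d)).card ≤ 2 ^ d := by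
      calc ((antidiagonal k).filter (fun p => p.1 < 2 ^ d)).card ≤ (range (2 ^ d)).card := by
            refine card_le_card_of_injOn (fun p => p.1) ?_ ?_
            · intro p hp
              simp only [coe_filter, Set.mem_ofPred_eq] at hp
              simp only [coe_range, Set.mem_Iio]
              exact hp.2
            · intro p hp q hq h
              simp only [coe_filter, Set.mem_ofPred_eq, HasAntidiagonal.mem_antidiagonal] at hp hq
              simp only at h
              ext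
              · exact h
              · omega
        _ = 2 ^ d := card_range _
    rw [sum_const, smul_eq_mul] at h1
    calc _ ≤ _ := h1
      _ ≤ 2 ^ d * (M * M) := Nat.mul_le_mul_right _ h2
      _ < B := hMB
  have e : x * y = ∑ k ∈ range (2 * 2 ^ d), (∑ p ∈ antidiagonal k, a p.1 * b p.2) * B ^ k := by
    rw [← packed_mul a b _ ha0 hb0]
    conv_lhs => rw [eq_sum_dg x _ hx.bd, eq_sum_dg y _ hy.bd]
    congr 1
    · refine sum_congr rfl fun k hk => ?_
      simp only [ha]
      rw [if_pos (mem_range.1 hk)]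
    · refine sum_congr rfl fun k hk => ?_
      simp only [hb]
      rw [if_pos (mem_range.1 hk)]
  unfold mul
  refine rep_red hM hMB' (Nat.mod_lt _ (pow_pos B_pos _)) fun k hk => ?_
  rw [dg_mod, if_pos hk, e, dg_sum _ hc, if_pos (by omega), PowerSeries.coeff_mul]
  push_cast
  refine sum_congr rfl fun p hp => ?_
  rw [HasAntidiagonal.mem_antidiagonal] at hp
  simp only [ha, hb]
  rw [if_pos (by omega), if_pos (by omega), hx.co _ (by omega), hy.co _ (by omega)]

end Pool.Agent.R395.Kron
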