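import Pool.Agent.R537.LR.Stm
import Mathlib.LinearAlgebra.Matrix.Gershgorin

/-!
# Low-rank approximation: normalized factorization
-/

set_option autoImplicit false

namespace Pool.Agent.NPC.R537LR.R395

open Pool.Agent.NPC.R537LR

section

variable {R C : Type}

lemma w_nonneg (P : Pt R C) {W Q : ℝ} (hW : 0 ≤ W) (hQ : 0 ≤ Q) (r : R) (c : C) :
    0 ≤ P.w W Q r c := by
  classical
  unfold Pt.w
  apply mul_nonneg
  · cases P.tR r <;> simp [hW]
  · cases P.tC c with
    | none =>
      by_cases h : c = P.co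
      · simp [h]
      · simp [h, hQ]
    | some j => exact mul_nonneg hW hQ

lemma wN_le (P : Pt R C) (hP : P.OK) {W Q : ℝ} (hW : 4 ≤ W) (hQ : 1 ≤ Q) (r : R) (c : C)
    (hE : P.E r c = none) : P.w W Q r c * P.N r c ≤ W * Q := by
  classical
  have hWQ : W ≤ W * Q := by nlinarith
  cases hc : P.tC c with
  | some j =>
    cases hr : P.tR r with
    | some i =>
      exfalso
      have h1 : r = P.ar i := (hP.tR_iff r i).1 hr
      have : P.E r c = P.rv r j := by simp [Pt.E, hc]
      rw [this, h1, hP.rv_ar] at hE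
      simp at hE
    | none =>
      simp [Pt.w, Pt.N, hc, hr]
  | none =>
    cases hr : P.tR r with
    | some i =>
      by_cases h : c = P.co
      · subst h
        simp only [Pt.w, Pt.N, hc, hr, if_true]
        linarith
      · simp only [Pt.w, Pt.N, hc, hr, h, if_false]
        linarith
    | none =>
      by_cases h : c = P.co
      · subst h
        simp only [Pt.w, Pt.N, hc, hr, if_true]
        linarith
      · simp only [Pt.w, Pt.N, hc, hr, h, if_false]
        nlinarith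

lemma base_le [Fintype R] [Fintype C] (P : Pt R C) (hP : P.OK) {m : ℕ} {W Q : ℝ} (hW : 4 ≤ W)
    (hQ : 1 ≤ Q) (hn : 1 ≤ Fintype.card R * Fintype.card C) :
    P.base m W Q ≤ 2 * ((Fintype.card R * Fintype.card C : ℕ) : ℝ) * (W * Q) * (m : ℝ) ^ 2 := by
  classical
  unfold Pt.base
  apply mul_le_mul_of_nonneg_right _ (by positivity)
  have h1 : (∑ r, ∑ c, if P.E r c = none then P.w W Q r c * P.N r c else 0) ≤
      ∑ _r : R, ∑ _c : C, W * Q := by
    apply Finset.sum_le_sum
    intro r _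
    apply Finset.sum_le_sum
    intro c _
    split_ifs with h
    · exact wN_le P hP hW hQ r c h
    · positivity
  have h2 : (∑ _r : R, ∑ _c : C, W * Q) = ((Fintype.card R * Fintype.card C : ℕ) : ℝ) * (W * Q) := by
    simp only [Finset.sum_const, Finset.card_univ, nsmul_eq_mul]
    push_cast
    ring
  have h3 : (1 : ℝ) ≤ ((Fintype.card R * Fintype.card C : ℕ) : ℝ) := by exact_mod_cast hn
  have h4 : (1 : ℝ) ≤ W * Q := by nlinarith
  have h5 : (1 : ℝ) ≤ ((Fintype.card R * Fintype.card C : ℕ) : ℝ) * (W * Q) := by nlinarith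
  linarith

lemma cost_term [Fintype R] [Fintype C] (P : Pt R C) {m : ℕ} {H : ℕ → ℕ → ℝ} {W Q : ℝ}
    (hW : 0 ≤ W) (hQ : 0 ≤ Q) (X : R → Fin m → C → Fin m → ℝ) (r : R) (c : C) :
    P.w W Q r c * ∑ a : Fin m, ∑ b : Fin m, |P.A H r c a b - X r a c b| ≤ P.cost m H W Q X := by
  classical
  unfold Pt.cost
  have hnn : ∀ r c, 0 ≤ P.w W Q r c * ∑ a : Fin m, ∑ b : Fin m, |P.A H r c a b - X r a c b| := by
    intro r c
    exact mul_nonneg (w_nonneg P hW hQ r c)
      (Finset.sum_nonneg fun a _ => Finset.sum_nonneg fun b _ => abs_nonneg _)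
  refine le_trans ?_ (Finset.single_le_sum (f := fun r => ∑ c, P.w W Q r c *
    ∑ a : Fin m, ∑ b : Fin m, |P.A H r c a b - X r a c b|)
    (fun r _ => Finset.sum_nonneg fun c _ => hnn r c) (Finset.mem_univ r))
  exact Finset.single_le_sum (f := fun c => P.w W Q r c *
    ∑ a : Fin m, ∑ b : Fin m, |P.A H r c a b - X r a c b|) (fun c _ => hnn r c)
    (Finset.mem_univ c)

/-- The means of the anchor blocks are close to the identity matrix. -/
lemma block_mean [Fintype R] [Fintype C] (P : Pt R C) (hP : P.OK) {m : ℕ} {H : ℕ → ℕ → ℝ}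
    {W Q : ℝ} (hB : Big (Fintype.card R * Fintype.card C) m W Q)
    (X : R → Fin m → C → Fin m → ℝ) (hX : P.cost m H W Q X < P.base m W Q) (i j : Fin 3) :
    |(∑ a : Fin m, ∑ b : Fin m, X (P.ar i) a (P.ac j) b) / (m : ℝ) ^ 2 -
      (if i = j then 1 else 0)| ≤ 1 / 100 := by
  classical
  obtain ⟨hn, hm, hQ, hW⟩ := hB
  set n := Fintype.card R * Fintype.card C with hndef
  have hn' : (1 : ℝ) ≤ (n : ℝ) := by exact_mod_cast hn
  have hm0 : 1 ≤ m := by
    have : 1 ≤ 2 ^ 19 * n ^ 2 := Nat.one_le_iff_ne_zero.2 (by positivity)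
    omega
  have hm' : (1 : ℝ) ≤ (m : ℝ) := by exact_mod_cast hm0
  have hWn : 2 ^ 20 * (n : ℝ) ≤ W := by
    refine le_trans ?_ hW
    have h1 : (n : ℝ) ≤ (n : ℝ) ^ 3 := by nlinarith [mul_self_nonneg (n : ℝ), sq_nonneg ((n : ℝ) - 1)]
    have h2 : (1 : ℝ) ≤ (m : ℝ) * Q := by nlinarith
    have h3 : (n : ℝ) ^ 3 ≤ (n : ℝ) ^ 3 * ((m : ℝ) * Q) := by
      apply le_mul_of_one_le_right (by positivity) h2
    nlinarith
  have hW4 : 4 ≤ W := by nlinarith
  have h1 := cost_term P (H := H) (by linarith : (0 : ℝ) ≤ W) (by linarith : (0 : ℝ) ≤ Q) X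
    (P.ar i) (P.ac j)
  have h2 := base_le P hP (m := m) hW4 hQ (by rw [← hndef]; exact hn)
  rw [← hndef] at h2
  have hr : P.tR (P.ar i) = some i := (hP.tR_iff _ _).2 rfl
  have hc : P.tC (P.ac j) = some j := (hP.tC_iff _ _).2 rfl
  have hw : P.w W Q (P.ar i) (P.ac j) = W * (W * Q) := by simp [Pt.w, hr, hc]
  have hE : P.E (P.ar i) (P.ac j) = some (if i = j then 1 else 0) := by
    simp [Pt.E, hc, hP.rv_ar]
  have hA : ∀ a b : ℕ, P.A H (P.ar i) (P.ac j) a b = if i = j then 1 else 0 := by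
    intro a b
    simp only [Pt.A, hE]
  simp only [hA, hw] at h1
  set D := ∑ a : Fin m, ∑ b : Fin m, |(if i = j then (1 : ℝ) else 0) - X (P.ar i) a (P.ac j) b|
    with hD
  have hD0 : 0 ≤ D := Finset.sum_nonneg fun a _ => Finset.sum_nonneg fun b _ => abs_nonneg _
  have h3 : W * (W * Q) * D < 2 * (n : ℝ) * (W * Q) * (m : ℝ) ^ 2 :=
    lt_of_le_of_lt h1 (lt_of_lt_of_le hX h2)
  have hWQ : 0 < W * Q := by nlinarith
  have h4 : W * D < 2 * (n : ℝ) * (m : ℝ) ^ 2 := by
    by_contra hcon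
    push Not at hcon
    have := mul_le_mul_of_nonneg_left hcon hWQ.le
    nlinarith
  have h5 : 2 ^ 20 * (n : ℝ) * D ≤ 2 * (n : ℝ) * (m : ℝ) ^ 2 :=
    le_trans (mul_le_mul_of_nonneg_right hWn hD0) h4.le
  have h6 : D ≤ (m : ℝ) ^ 2 / 100 := by
    have h7 : (n : ℝ) * (2 ^ 20 * D) ≤ (n : ℝ) * (2 * (m : ℝ) ^ 2) := by nlinarith
    have h8 := le_of_mul_le_mul_left h7 (by linarith)
    nlinarith [sq_nonneg (m : ℝ)]
  have hmpos : (0 : ℝ) < (m : ℝ) ^ 2 := by positivity
  have h9 : (∑ a : Fin m, ∑ b : Fin m, X (P.ar i) a (P.ac j) b) / (m : ℝ) ^ 2 -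
      (if i = j then 1 else 0) =
      -(∑ a : Fin m, ∑ b : Fin m, ((if i = j then (1 : ℝ) else 0) - X (P.ar i) a (P.ac j) b)) /
        (m : ℝ) ^ 2 := by
    simp only [Finset.sum_sub_distrib, Finset.sum_const, Finset.card_univ, Fintype.card_fin,
      nsmul_eq_mul]
    field_simp
    ring
  rw [h9, abs_div, abs_neg, abs_of_pos hmpos, div_le_iff₀ hmpos]
  refine le_trans (Finset.abs_sum_le_sum_abs _ _) ?_
  refine le_trans (Finset.sum_le_sum fun a _ => Finset.abs_sum_le_sum_abs _ _) ?_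
  linarith

end

/-- A `3 × 3` matrix close to the identity is invertible. -/
lemma det_ne (M : Matrix (Fin 3) (Fin 3) ℝ)
    (hM : ∀ i j, |M i j - (if i = j then 1 else 0)| ≤ 1 / 100) : M.det ≠ 0 := by
  apply det_ne_zero_of_sum_row_lt_diag
  intro k
  have h1 : ∑ j ∈ Finset.univ.erase k, ‖M k j‖ ≤ ∑ j ∈ Finset.univ.erase k, (1 / 100 : ℝ) := by
    apply Finset.sum_le_sum
    intro j hj
    have h := hM k j
    rw [if_neg (fun h' => (Finset.mem_erase.1 hj).1 h'.symm), sub_zero] at h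
    rwa [Real.norm_eq_abs]
  have h2 : ∑ j ∈ Finset.univ.erase k, (1 / 100 : ℝ) = 2 / 100 := by
    rw [Finset.sum_const, Finset.card_erase_of_mem (Finset.mem_univ k)]
    norm_num
  have h3 := hM k k
  rw [if_pos rfl, abs_le] at h3
  have h4 : M k k ≤ ‖M k k‖ := le_abs_self _
  linarith [h3.1]

/-- Rank reduction. -/
lemma factor {I J : Type} [Fintype I] [Fintype J] [DecidableEq I] [DecidableEq J]
    (A : Matrix I J ℝ) (hA : A.rank ≤ 3) (U : Matrix (Fin 3) I ℝ) (V : Matrix J (Fin 3) ℝ)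
    (hM : (U * A * V).det ≠ 0) :
    ∃ L : Matrix (Fin 3) J ℝ, A = A * V * L ∧ L * V = 1 := by
  have hu : IsUnit (U * A * V) := (Matrix.isUnit_iff_isUnit_det _).2 (isUnit_iff_ne_zero.2 hM)
  have hrk : (U * A * V).rank = 3 := by
    rw [Matrix.rank_of_isUnit _ hu]; simp
  have h1 : (U * A * V).rank ≤ (A * V).rank := by
    rw [Matrix.mul_assoc]
    exact Matrix.rank_mul_le_right _ _
  have hle : LinearMap.range (A * V).mulVecLin ≤ LinearMap.range A.mulVecLin := by
    rintro _ ⟨x, rfl⟩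
    exact ⟨V.mulVec x, by simp [Matrix.mulVec_mulVec]⟩
  have heq : LinearMap.range (A * V).mulVecLin = LinearMap.range A.mulVecLin := by
    apply Submodule.eq_of_le_of_finrank_le hle
    have h2 : Module.finrank ℝ (LinearMap.range A.mulVecLin) = A.rank := rfl
    have h3 : Module.finrank ℝ (LinearMap.range (A * V).mulVecLin) = (A * V).rank := rfl
    rw [h2, h3]
    omega
  have hcol : ∀ y : J, ∃ t : Fin 3 → ℝ, (A * V).mulVec t = fun x => A x y := by
    intro y
    have : (fun x => A x y) ∈ LinearMap.range A.mulVecLin := by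
      refine ⟨Pi.single y 1, ?_⟩
      ext x
      simp [Matrix.mulVec_single]
    rw [← heq] at this
    obtain ⟨t, ht⟩ := this
    exact ⟨t, ht⟩
  choose T hT using hcol
  refine ⟨Matrix.of fun s y => T y s, ?_, ?_⟩
  · ext x y
    have := congrFun (hT y) x
    rw [Matrix.mul_apply]
    rw [← this]
    simp [Matrix.mulVec, dotProduct]
  · set L : Matrix (Fin 3) J ℝ := Matrix.of fun s y => T y s with hL
    have hAL : A = A * V * L := by
      ext x y
      have := congrFun (hT y) x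
      rw [Matrix.mul_apply]
      rw [← this]
      simp [Matrix.mulVec, dotProduct, hL]
    have h5 : (U * A * V) * (L * V) = (U * A * V) * 1 := by
      rw [Matrix.mul_one]
      calc (U * A * V) * (L * V) = U * (A * V * L) * V := by simp only [Matrix.mul_assoc]
        _ = U * A * V := by rw [← hAL]
    exact hu.mul_left_cancel h5

end Pool.Agent.NPC.R537LR.R395

namespace Pool.Agent.NPC.R537LR

open R395

theorem t_NOA : S_NOA := by
  intro R C _ _ _ _ P m H W Q X hP _ hB hrk hX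
  classical
  have hm0 : (0 : ℝ) < (m : ℝ) := by
    have h1 := hB.hm
    have h2 := hB.hn
    have : 1 ≤ 2 ^ 19 * (Fintype.card R * Fintype.card C) ^ 2 :=
      Nat.one_le_iff_ne_zero.2 (by positivity)
    have : 0 < m := by omega
    exact_mod_cast this
  set A : Matrix (R × Fin m) (C × Fin m) ℝ :=
    Matrix.of fun (x : R × Fin m) (y : C × Fin m) => X x.1 x.2 y.1 y.2 with hA
  set U : Matrix (Fin 3) (R × Fin m) ℝ :=
    Matrix.of fun i x => if x.1 = P.ar i then 1 / (m : ℝ) else 0 with hU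
  set V : Matrix (C × Fin m) (Fin 3) ℝ :=
    Matrix.of fun y j => if y.1 = P.ac j then 1 / (m : ℝ) else 0 with hV
  have hLV : ∀ (L : Matrix (Fin 3) (C × Fin m) ℝ) (s j : Fin 3),
      (L * V) s j = (∑ b : Fin m, L s (P.ac j, b)) / m := by
    intro L s j
    rw [Matrix.mul_apply, Fintype.sum_prod_type]
    simp only [hV, Matrix.of_apply, mul_ite, mul_zero]
    rw [Finset.sum_eq_single (P.ac j)]
    · simp only [if_true]
      rw [Finset.sum_div]
      exact Finset.sum_congr rfl fun b _ => by ring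
    · intro c _ hc
      simp [hc]
    · intro h; exact absurd (Finset.mem_univ _) h
  have hUA : ∀ (i : Fin 3) (y : C × Fin m),
      (U * A) i y = (∑ a : Fin m, X (P.ar i) a y.1 y.2) / m := by
    intro i y
    rw [Matrix.mul_apply, Fintype.sum_prod_type]
    simp only [hU, hA, Matrix.of_apply, ite_mul, zero_mul]
    rw [Finset.sum_eq_single (P.ar i)]
    · simp only [if_true]
      rw [Finset.sum_div]
      exact Finset.sum_congr rfl fun b _ => by ring
    · intro c _ hc
      simp [hc]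
    · intro h; exact absurd (Finset.mem_univ _) h
  have hM : ∀ i j, (U * A * V) i j =
      (∑ a : Fin m, ∑ b : Fin m, X (P.ar i) a (P.ac j) b) / (m : ℝ) ^ 2 := by
    intro i j
    rw [hLV (U * A) i j]
    simp only [hUA]
    rw [← Finset.sum_div, div_div, ← pow_two, Finset.sum_comm]
  have hdet : (U * A * V).det ≠ 0 := by
    apply det_ne
    intro i j
    rw [hM i j]
    exact block_mean P hP hB X hX i j
  obtain ⟨L, hL1, hL2⟩ := factor A hrk U V hdet
  refine ⟨fun r a s => (A * V) (r, a) s, fun c b s => L s (c, b), ?_, ?_⟩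
  · intro r a c b
    have h := congrFun (congrFun hL1 (r, a)) (c, b)
    rw [Matrix.mul_apply] at h
    simpa [hA] using h
  · intro j s
    have h := hLV L s j
    rw [hL2] at h
    unfold mean
    rw [← h, Matrix.one_apply]
    by_cases hjs : j = s
    · simp [hjs]
    · simp [hjs, Ne.symm hjs]

end Pool.Agent.NPC.R537LR
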