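import Pool.Agent.R395.Kron

/-!
Packed divisor sums.
-/

set_option autoImplicit false

namespace Pool.Agent.R395.Kron

open Finset

/-- sum of `B^(d*i)`, `1 ≤ i ≤ m` (fuel `f`, `m < 2 ^ f`) -/
def geo (d : ℕ) : ℕ → ℕ → ℕ
  | 0, _ => 0
  | f + 1, m => match m with
    | 0 => 0
    | m + 1 => (1 + 2 ^ (128 * (d * ((m + 1) / 2)))) * geo d f ((m + 1) / 2) +
        ((m + 1) % 2) * 2 ^ (128 * (d * (m + 1)))

lemma two_pow (n : ℕ) : 2 ^ (128 * n) = B ^ n := by unfold B; rw [pow_mul]

lemma geo_eq (d f m : ℕ) (h : m < 2 ^ f) : geo d f m = ∑ i ∈ range m, B ^ (d * (i + 1)) := by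
  induction f generalizing m with
  | zero =>
    have : m = 0 := by simpa using h
    subst this
    simp [geo]
  | succ f ih =>
    match m with
    | 0 => simp [geo]
    | m + 1 =>
      rw [geo, two_pow, two_pow]
      have h1 : (m + 1) / 2 < 2 ^ f := by
        rw [pow_succ] at h
        omega
      rw [ih _ h1]
      have h2 : ∑ i ∈ range ((m + 1) / 2 + (m + 1) / 2), B ^ (d * (i + 1)) =
          (1 + B ^ (d * ((m + 1) / 2))) * ∑ i ∈ range ((m + 1) / 2), B ^ (d * (i + 1)) := by
        rw [sum_range_add, add_mul, one_mul, mul_sum]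
        congr 1
        refine sum_congr rfl fun i _ => ?_
        rw [← pow_add]
        congr 1
        ring
      rw [← h2]
      rcases Nat.even_or_odd' (m + 1) with ⟨t, ht | ht⟩
      · have e1 : (m + 1) / 2 = t := by omega
        have e2 : (m + 1) % 2 = 0 := by omega
        rw [e1, e2, zero_mul, add_zero, ht, two_mul]
      · have e1 : (m + 1) / 2 = t := by omega
        have e2 : (m + 1) % 2 = 1 := by omega
        rw [e1, e2, one_mul, ht, sum_range_succ, two_mul]

/-- balanced sum -/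
def sumr (f : ℕ → ℕ) : ℕ → ℕ → ℕ
  | 0, a => f a
  | j + 1, a => sumr f j a + sumr f j (a + 2 ^ j)

lemma sumr_eq (f : ℕ → ℕ) (j a : ℕ) : sumr f j a = ∑ i ∈ range (2 ^ j), f (a + i) := by
  induction j generalizing a with
  | zero => simp [sumr]
  | succ j ih =>
    rw [sumr, ih, ih, pow_succ, mul_two, sum_range_add]
    congr 1
    refine sum_congr rfl fun i _ => ?_
    rw [add_assoc]

/-- one summand -/
def term (D k d : ℕ) : ℕ := d ^ k * geo d (D + 1) ((2 ^ D - 1) / d)

/-- the packed divisor sums -/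
def sg (D k : ℕ) : ℕ := sumr (term D k) D 0

lemma geo_div (D d : ℕ) : geo d (D + 1) ((2 ^ D - 1) / d) =
    ∑ n ∈ range (2 ^ D), if n ≠ 0 ∧ d ≠ 0 ∧ d ∣ n then B ^ n else 0 := by
  have hlt : (2 ^ D - 1) / d < 2 ^ (D + 1) := by
    calc (2 ^ D - 1) / d ≤ 2 ^ D - 1 := Nat.div_le_self _ _
      _ < 2 ^ (D + 1) := by
        rw [pow_succ]
        have : 0 < 2 ^ D := by positivity
        omega
  rw [geo_eq _ _ _ hlt, ← sum_filter]
  have hD : 0 < 2 ^ D := by positivity
  rcases Nat.eq_zero_or_pos d with hd | hd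
  · subst hd
    simp
  · refine sum_nbij' (fun i => d * (i + 1)) (fun n => n / d - 1) ?_ ?_ ?_ ?_ ?_
    · intro i hi
      rw [mem_range] at hi
      rw [mem_filter, mem_range]
      refine ⟨?_, by positivity, by omega, dvd_mul_right _ _⟩
      have h1 : d * (i + 1) ≤ d * ((2 ^ D - 1) / d) := Nat.mul_le_mul_left _ (by omega)
      have h2 := Nat.mul_div_le (2 ^ D - 1) d
      omega
    · intro n hn
      rw [mem_filter, mem_range] at hn
      rw [mem_range]
      obtain ⟨h1, h2, h3, h4⟩ := hn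
      have h5 : 0 < n / d := Nat.div_pos (Nat.le_of_dvd (by omega) h4) hd
      have h6 : n / d ≤ (2 ^ D - 1) / d := Nat.div_le_div_right (by omega)
      omega
    · intro i hi
      rw [Nat.mul_div_cancel_left _ hd]
      omega
    · intro n hn
      rw [mem_filter, mem_range] at hn
      obtain ⟨h1, h2, h3, h4⟩ := hn
      have h5 : 0 < n / d := Nat.div_pos (Nat.le_of_dvd (by omega) h4) hd
      rw [Nat.sub_add_cancel h5, Nat.mul_div_cancel' h4]
    · intro i hi
      rfl

lemma sg_eq (D k : ℕ) : sg D k =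
    ∑ n ∈ range (2 ^ D), (if n = 0 then 0 else ArithmeticFunction.sigma k n) * B ^ n := by
  unfold sg
  rw [sumr_eq]
  have h1 : ∀ i, term D k (0 + i) = ∑ n ∈ range (2 ^ D), if n ≠ 0 ∧ i ≠ 0 ∧ i ∣ n then i ^ k * B ^ n else 0 := by
    intro i
    rw [zero_add, term, geo_div, mul_sum]
    refine sum_congr rfl fun n _ => ?_
    split_ifs <;> simp
  simp_rw [h1]
  rw [sum_comm]
  refine sum_congr rfl fun n hn => ?_
  rw [mem_range] at hn
  rcases Nat.eq_zero_or_pos n with h0 | h0
  · subst h0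
    simp
  · rw [if_neg (by omega), ArithmeticFunction.sigma_apply, sum_mul, ← sum_filter]
    refine sum_congr ?_ fun i _ => rfl
    ext i
    rw [mem_filter, mem_range, Nat.mem_divisors]
    constructor
    · rintro ⟨h2, h3, h4, h5⟩
      exact ⟨h5, h3⟩
    · rintro ⟨h2, h3⟩
      have := Nat.le_of_dvd h0 h2
      refine ⟨by omega, h3, ?_, h2⟩
      rintro rfl
      exact h3 (by simpa using h2)

lemma sigma_le (k n : ℕ) : ArithmeticFunction.sigma k n ≤ n * n ^ k := by
  rw [ArithmeticFunction.sigma_apply]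
  calc ∑ d ∈ n.divisors, d ^ k ≤ ∑ d ∈ n.divisors, n ^ k :=
        sum_le_sum fun d hd => Nat.pow_le_pow_left (Nat.divisor_le hd) k
    _ = n.divisors.card * n ^ k := by rw [sum_const, smul_eq_mul]
    _ ≤ n * n ^ k := Nat.mul_le_mul_right _ (Nat.card_divisors_le_self n)

/-- `1 + c σ_k` -/
lemma rep_sg {M D : ℕ} (hM : 0 < M) (hMB : M ≤ B) (c k : ℕ) (hc : 1 + c * (2 ^ D * (2 ^ D) ^ k) < B)
    (f : PowerSeries (ZMod M))
    (hf : ∀ n < 2 ^ D, PowerSeries.coeff n f =
      if n = 0 then 1 else (c : ZMod M) * (ArithmeticFunction.sigma k n : ℕ)) :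
    Rep M D (red M D (1 + c * sg D k)) f := by
  have h0 : 0 < 2 ^ D := by positivity
  have e : 1 + c * sg D k = ∑ n ∈ range (2 ^ D),
      (if n = 0 then 1 else c * (if n < 2 ^ D then ArithmeticFunction.sigma k n else 0)) * B ^ n := by
    rw [sg_eq, mul_sum]
    obtain ⟨m, hm⟩ : ∃ m, 2 ^ D = m + 1 := ⟨2 ^ D - 1, by omega⟩
    rw [hm, sum_range_succ', sum_range_succ']
    simp only [if_true, mul_zero, add_zero, pow_zero, mul_one]
    rw [add_comm]
    congr 1
    refine sum_congr rfl fun n hn => ?_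
    rw [mem_range] at hn
    rw [if_neg (by omega), if_neg (by omega), if_pos (by omega)]
    ring
  have hlt : ∀ n, (if n = 0 then 1 else c * (if n < 2 ^ D then ArithmeticFunction.sigma k n else 0)) < B := by
    intro n
    split_ifs with h1 h2
    · unfold B; norm_num
    · have h3 := sigma_le k n
      have h4 : n * n ^ k ≤ 2 ^ D * (2 ^ D) ^ k := Nat.mul_le_mul h2.le (Nat.pow_le_pow_left h2.le k)
      have h5 : c * ArithmeticFunction.sigma k n ≤ c * (2 ^ D * (2 ^ D) ^ k) := Nat.mul_le_mul_left _ (h3.trans h4)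
      omega
    · simp only [mul_zero]
      exact B_pos
  refine rep_red hM hMB ?_ fun n hn => ?_
  · rw [e]
    exact sum_lt _ hlt _
  · rw [e, dg_sum _ hlt, if_pos hn, if_pos hn, hf n hn]
    split_ifs <;> simp

end Pool.Agent.R395.Kron
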